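import Pool.Agent.L0h16.LL.Stm
import Pool.Agent.L0h18.CO.Conv

/-!
# Project LL, module RIG: an invariant closed convex cone which meets the positive cone contains it
-/

set_option autoImplicit false

open Pool.Agent.Y167 (cone)
open Pool.Agent.N165.KM (IntL exists_pos_functional)
open Pool.Agent.L0h18.CO (IsOpenCone exists_eps exists_extremal)
open Pool.Agent.N110.CC (PC)
open Pool.Agent.L0h16.LL
open Filter Topology

namespace Pool.Agent.L0h66.LL

/-- (RIG) -/
theorem t_RIG (hCONE : S_CONE) (_hPAIR : S_PAIR) (_hISO : S_ISO) (hCOVG : S_COVG) (hLIM : S_LIM) :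
    S_RIG := by
  classical
  intro ρ Q h hQ hρ 𝒢 h𝒢 hsym hfin D hDc hDa hDs hDG x₀ hx₀ hx₀D
  obtain ⟨-, hΩ, hcl, -, hpm, -⟩ := hCONE ρ Q h hQ
  by_contra hcon
  obtain ⟨v, hv, hvD⟩ := Set.not_subset.1 hcon
  have hP := hΩ.pc ⟨x₀, hx₀⟩
  have hΩP : posC Q h ⊆ closure (posC Q h) := subset_closure
  have hΩG : ∀ T ∈ 𝒢, ∀ x ∈ posC Q h, T x ∈ posC Q h := fun T hT => (h𝒢 T hT).pos
  have hPG : ∀ T ∈ 𝒢, ∀ x ∈ closure (posC Q h), T x ∈ closure (posC Q h) := fun T hT x hx =>
    map_mem_closure (LinearMap.continuous_of_finiteDimensional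
      (T : (Fin ρ → ℝ) →ₗ[ℝ] (Fin ρ → ℝ))) hx fun a ha => hΩG T hT a ha
  obtain ⟨f, c, hc, hf⟩ := exists_pos_functional hP.closed hP.add hP.smul hP.pointed
  have hfn : ∀ x ∈ closure (posC Q h), 0 ≤ f x := fun x hx =>
    (mul_nonneg hc.le (norm_nonneg x)).trans (hf x hx)
  -- a separating functional
  have hconv : Convex ℝ D := by
    intro a ha b hb s t hs ht _
    exact hDa _ (hDs s hs a ha) _ (hDs t ht b hb)
  obtain ⟨ℓ, s, h1, h2⟩ := geometric_hahn_banach_point_closed hconv hDc hvD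
  have hD0 : (0 : Fin ρ → ℝ) ∈ D := by
    have := hDs 0 le_rfl _ hx₀D
    rwa [zero_smul] at this
  have hs0 : s < 0 := by
    have := h2 0 hD0
    rwa [map_zero] at this
  have hℓD : ∀ x ∈ D, 0 ≤ ℓ x := by
    intro x hx
    by_contra hneg
    push Not at hneg
    have h3 := h2 ((s / ℓ x) • x) (hDs _ (div_nonneg_of_nonpos hs0.le hneg.le) x hx)
    rw [map_smul, smul_eq_mul, div_mul_cancel₀ _ hneg.ne] at h3
    exact lt_irrefl _ h3
  obtain ⟨e, heP, hfe, hℓe, hext⟩ := exists_extremal hP hc hf ℓ hv (by linarith)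
  obtain ⟨E, hE, hcov⟩ := hCOVG ρ Q h hQ 𝒢 h𝒢 hsym hfin
  obtain ⟨z, hz, hlim⟩ := mem_closure_iff_seq_limit.1 heP
  choose T hT hcone using fun n => hcov (z n) (hz n)
  choose a ha hsum using hcone
  -- the parts
  obtain ⟨w, hw⟩ : ∃ w : ℕ → (Fin ρ → ℝ) → Fin ρ → ℝ, ∀ n s, w n s = a n s • (T n).symm s :=
    ⟨_, fun _ _ => rfl⟩
  have hwP : ∀ n, ∀ s ∈ E, w n s ∈ closure (posC Q h) := by
    intro n s hs
    rw [hw]
    exact hP.smul _ (ha n s) _ (hPG _ (hsym _ (hT n)) _ (hE s hs).2)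
  have hzsum : ∀ n, z n = ∑ s ∈ E, w n s := by
    intro n
    have h3 := congrArg (T n).symm (hsum n)
    rw [LinearEquiv.symm_apply_apply, map_sum] at h3
    rw [h3]
    refine Finset.sum_congr rfl fun s _ => ?_
    rw [map_smul, hw]
  obtain ⟨M, hM⟩ : ∃ M : ℝ, ∀ n, f (z n) ≤ M := by
    have h1 : Tendsto (fun n => f (z n)) atTop (𝓝 (f e)) := (f.continuous.tendsto _).comp hlim
    obtain ⟨M, hM⟩ := h1.bddAbove_range
    exact ⟨M, fun n => hM ⟨n, rfl⟩⟩
  have hwM : ∀ n, ∀ s ∈ E, f (w n s) ≤ M := by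
    intro n s hs
    have h3 := hM n
    rw [hzsum, map_sum] at h3
    exact (Finset.single_le_sum (f := fun s => f (w n s)) (fun i hi => hfn _ (hwP n i hi)) hs).trans
      h3
  have hM0 : 0 ≤ M := (hfn _ (hΩP (hz 0))).trans (hM 0)
  have hbd : ∀ x ∈ closure (posC Q h), f x ≤ M → ‖x‖ ≤ M / c := by
    intro x hx hxM
    rw [le_div_iff₀ hc, mul_comm]
    exact (hf x hx).trans hxM
  have hWb : ∀ n, (fun s : E => w n s) ∈ Metric.closedBall (0 : E → Fin ρ → ℝ) (M / c) := by
    intro n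
    rw [Metric.mem_closedBall, dist_zero_right]
    refine (pi_norm_le_iff_of_nonneg (by positivity)).2 fun s => ?_
    exact hbd _ (hwP n s s.2) (hwM n s s.2)
  obtain ⟨W, -, φ, hφ, hWlim⟩ := tendsto_subseq_of_bounded Metric.isBounded_closedBall hWb
  have hWs : ∀ s : E, Tendsto (fun n => w (φ n) s) atTop (𝓝 (W s)) := fun s =>
    (tendsto_pi_nhds.1 hWlim) s
  have hWP : ∀ s : E, W s ∈ closure (posC Q h) := fun s =>
    isClosed_closure.mem_of_tendsto (hWs s) (Eventually.of_forall fun n => hwP _ s s.2)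
  have hzlim : Tendsto (fun n => z (φ n)) atTop (𝓝 e) := hlim.comp hφ.tendsto_atTop
  have hWsum : ∑ s : E, W s = e := by
    have h3 : Tendsto (fun n => ∑ s : E, w (φ n) s) atTop (𝓝 (∑ s : E, W s)) :=
      tendsto_finsetSum _ fun s _ => hWs s
    have h4 : (fun n => ∑ s : E, w (φ n) s) = fun n => z (φ n) := by
      funext n
      rw [hzsum]
      exact Finset.sum_coe_sort E (fun s => w (φ n) s)
    rw [h4] at h3
    exact tendsto_nhds_unique h3 hzlim
  have hPsum : ∀ (A : Finset E), ∑ s ∈ A, W s ∈ closure (posC Q h) := by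
    intro A
    induction A using Finset.induction_on with
    | empty =>
      rw [Finset.sum_empty]
      have := hP.smul 0 le_rfl _ (hΩP hx₀)
      rwa [zero_smul] at this
    | insert i A hi ih =>
      rw [Finset.sum_insert hi]
      exact hP.add _ (hWP i) _ ih
  have hsub : ∀ s : E, e - W s ∈ closure (posC Q h) := by
    intro s
    have h3 : e - W s = ∑ i ∈ Finset.univ.erase s, W i := by
      rw [← hWsum, ← Finset.add_sum_erase _ _ (Finset.mem_univ s)]
      abel
    rw [h3]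
    exact hPsum _
  have hWe : ∀ s : E, W s = f (W s) • e := fun s =>
    hext 1 one_pos _ (hWP s) (by rw [one_smul]; exact hsub s)
  obtain ⟨s, hs⟩ : ∃ s : E, 0 < f (W s) := by
    by_contra hcon2
    push Not at hcon2
    have h3 : f e = ∑ s : E, f (W s) := by
      rw [← hWsum, map_sum]
    have h4 : ∑ s : E, f (W s) ≤ 0 := Finset.sum_nonpos fun s _ => hcon2 s
    rw [hfe] at h3
    linarith
  obtain ⟨hsI, hsP⟩ := hE s s.2
  -- an element of `D` that is a nonnegative multiple of `e` is zero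
  have hDe : ∀ x ∈ D, x = f x • e → 0 < f x → False := by
    intro x hx hxe hfx
    have h3 := hℓD x hx
    rw [hxe, map_smul, smul_eq_mul] at h3
    have h4 := mul_neg_of_pos_of_neg hfx hℓe
    linarith
  rcases ((hcl s).1 hsP).1.eq_or_lt with hq | hq
  · -- a cusp
    by_cases hs00 : (s : Fin ρ → ℝ) = 0
    · have h3 : ∀ n, w (φ n) s = 0 := by
        intro n
        rw [hw, hs00, map_zero, smul_zero]
      have h4 : W s = 0 := by
        have h5 := hWs s
        simp only [h3] at h5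
        exact tendsto_nhds_unique h5 tendsto_const_nhds
      rw [h4, map_zero] at hs
      exact lt_irrefl _ hs
    · have hsD : (s : Fin ρ → ℝ) ∈ D := hLIM ρ Q h hQ hρ 𝒢 h𝒢 hsym hfin D hDc hDs hDG x₀ hx₀ hx₀D s
        hsI hs00 hsP hq.symm
      have hwD : ∀ n, w (φ n) s ∈ D := by
        intro n
        rw [hw]
        exact hDs _ (ha _ _) _ (hDG _ (hsym _ (hT _)) _ hsD)
      have hWD : W s ∈ D := hDc.mem_of_tendsto (hWs s) (Eventually.of_forall hwD)
      exact hDe _ hWD (hWe s) hs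
  · -- an element of the positive cone
    have hsΩ : (s : Fin ρ → ℝ) ∈ posC Q h := by
      rcases hpm s hq with h3 | h3
      · exact h3
      · exfalso
        have h4 := hP.pointed _ hsP (hΩP h3)
        rw [h4, bil_zero_left] at hq
        exact lt_irrefl _ hq
    obtain ⟨c₁, hc₁, hc₁'⟩ := exists_eps (isCompact_singleton (x := (s : Fin ρ → ℝ))) hΩ.isOpen
      (Set.singleton_subset_iff.2 hsΩ) x₀
    obtain ⟨c₂, hc₂, hc₂'⟩ := exists_eps (isCompact_singleton (x := x₀)) hΩ.isOpen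
      (Set.singleton_subset_iff.2 hx₀) (s : Fin ρ → ℝ)
    have hm1 := hΩP (hc₁' _ rfl)
    have hm2 := hΩP (hc₂' _ rfl)
    obtain ⟨y, hy⟩ : ∃ y : ℕ → Fin ρ → ℝ, ∀ n, y n = (a (φ n) s * c₁) • (T (φ n)).symm x₀ :=
      ⟨_, fun _ => rfl⟩
    have hyD : ∀ n, y n ∈ D := by
      intro n
      rw [hy]
      exact hDs _ (mul_nonneg (ha _ _) hc₁.le) _ (hDG _ (hsym _ (hT _)) _ hx₀D)
    have hyP : ∀ n, y n ∈ closure (posC Q h) := by
      intro n
      rw [hy]
      exact hP.smul _ (mul_nonneg (ha _ _) hc₁.le) _ (hPG _ (hsym _ (hT _)) _ (hΩP hx₀))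
    have hy1 : ∀ n, w (φ n) s - y n ∈ closure (posC Q h) := by
      intro n
      have h3 := hP.smul _ (ha (φ n) s) _ (hPG _ (hsym _ (hT (φ n))) _ hm1)
      rw [map_sub, smul_sub, map_smul, smul_smul, ← hw, ← hy] at h3
      exact h3
    have hy2 : ∀ n, y n - (c₁ * c₂) • w (φ n) s ∈ closure (posC Q h) := by
      intro n
      have h3 := hP.smul _ (mul_nonneg (ha (φ n) s) hc₁.le) _ (hPG _ (hsym _ (hT (φ n))) _ hm2)
      rw [map_sub, smul_sub, map_smul, smul_smul, ← hy] at h3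
      have h4 : (c₁ * c₂) • w (φ n) s = (a (φ n) s * c₁ * c₂) • (T (φ n)).symm (s : Fin ρ → ℝ) := by
        rw [hw, smul_smul]
        congr 1
        ring
      rw [h4]
      exact h3
    have hyb : ∀ n, y n ∈ Metric.closedBall (0 : Fin ρ → ℝ) (M / c) := by
      intro n
      rw [Metric.mem_closedBall, dist_zero_right]
      refine hbd _ (hyP n) ?_
      have h3 := hfn _ (hy1 n)
      rw [map_sub] at h3
      have h4 := hwM (φ n) s s.2
      linarith
    obtain ⟨y₀, -, ψ, hψ, hylim⟩ := tendsto_subseq_of_bounded Metric.isBounded_closedBall hyb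
    have hwlim : Tendsto (fun n => w (φ (ψ n)) s) atTop (𝓝 (W s)) :=
      (hWs s).comp hψ.tendsto_atTop
    have hy₀D : y₀ ∈ D := hDc.mem_of_tendsto hylim (Eventually.of_forall fun n => hyD _)
    have hy₀P : y₀ ∈ closure (posC Q h) := isClosed_closure.mem_of_tendsto hylim
      (Eventually.of_forall fun n => hyP _)
    have h3 : W s - y₀ ∈ closure (posC Q h) := isClosed_closure.mem_of_tendsto
      (hwlim.sub hylim) (Eventually.of_forall fun n => hy1 _)
    have h4 : y₀ - (c₁ * c₂) • W s ∈ closure (posC Q h) := isClosed_closure.mem_of_tendsto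
      (hylim.sub (hwlim.const_smul _)) (Eventually.of_forall fun n => hy2 _)
    have h5 : e - y₀ ∈ closure (posC Q h) := by
      have := hP.add _ (hsub s) _ h3
      rwa [sub_add_sub_cancel] at this
    have h6 := hext 1 one_pos y₀ hy₀P (by rw [one_smul]; exact h5)
    have h7 : 0 < f y₀ := by
      have h8 := hfn _ h4
      rw [map_sub, map_smul, smul_eq_mul] at h8
      have h9 := mul_pos (mul_pos hc₁ hc₂) hs
      linarith
    exact hDe _ hy₀D h6 h7

end Pool.Agent.L0h66.LL
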